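import Pool.Agent.TFR21.Main

/-!
# Witnesses for the theorems of a proof system, relative to a random oracle
-/

set_option autoImplicit false

namespace Pool.Agent.Results.MP_c56612_lc.DisjointPairs

open N68a2faeb N793a5b8e MeasureTheory Pool.Agent.ROr14 Pool.Agent.TFR21

/-- Relative to `X`: let `L` be a language in `NP`, with the witness relation `V` and the bound `p`
for the lengths of witnesses, and let `P` be a proof system for `L`. Then there are disjoint sets
`C`, `D` in `coNP` such that no algorithm working in time `2^O(n)` with the oracle `X` and with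
questions `π` answered by witnesses `W π` for the strings `P π` separates `C` from `D`. -/
def WitnessesDoNotHelp (X : List Bool → Bool) : Prop :=
  ∀ (L : DecisionProblem) (V : List Bool × List Bool → Bool) (p : Polynomial ℕ),
    IsPolyTimeOracle X V → (∀ y, L y ↔ ∃ w : List Bool, w.length ≤ p.eval y.length ∧ V (y, w)) →
    ∀ P : List Bool → List Bool, IsProofSystemOracle X L P →
      ∃ C D : DecisionProblem, Cᶜ ∈ NPOracle X ∧ Dᶜ ∈ NPOracle X ∧ (∀ x, ¬ (C x ∧ D x)) ∧
        ∀ M : Algorithm, ∃ W, FindsWitnesses V p P W ∧ ¬ Separates (M.run X W) C D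

theorem of_main {S : Acc} {A R X : List Bool → Bool} (hX : S.orc A R = X)
    (h : ∀ (V : List Bool × List Bool → Bool) (p : Polynomial ℕ) (P : List Bool → List Bool),
      IsPolyTimeOracle (S.orc A R) V → IsPolyTimeOracle (S.orc A R) P →
      (∀ π, ∃ w : List Bool, w.length ≤ p.eval (P π).length ∧ V (P π, w) = true) →
      ∃ C D : DecisionProblem, Cᶜ ∈ NPOracle (S.orc A R) ∧ Dᶜ ∈ NPOracle (S.orc A R) ∧
        (∀ x, ¬ (C x = true ∧ D x = true)) ∧
        ∀ M : Algorithm, ∃ W, FindsWitnesses V p P W ∧
          ¬ Separates (M.run (S.orc A R) W) C D) : WitnessesDoNotHelp X := by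
  subst hX
  intro L V p hV hL P hP
  refine h V p P hV hP.1 fun π => ?_
  obtain ⟨w, hw, hw'⟩ := (hL (P π)).1 ((hP.2 _).2 ⟨π, rfl⟩)
  exact ⟨w, hw, hw'⟩

/-- For almost every oracle `R`, and for every oracle `A` and almost every `R`, relative to `R`
respectively `A ⊕ R`: for no proof system of a language in `NP` do witnesses for the proved strings
help to separate all disjoint pairs of sets in `coNP`. -/
theorem result :
    (∀ᵐ R ∂randomOracle, WitnessesDoNotHelp R) ∧
    ∀ A : List Bool → Bool, ∀ᵐ R ∂randomOracle, WitnessesDoNotHelp (join A R) := by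
  constructor
  · filter_upwards [main acR (fun _ => false)] with R hR using
      of_main (S := acR) (A := fun _ => false) (R := R) (mix_accR _ R) hR
  · intro A
    filter_upwards [main acJ (join A fun _ => false)] with R hR using
      of_main (S := acJ) (A := join A fun _ => false) (R := R) (mix_accJ A R) hR

end Pool.Agent.Results.MP_c56612_lc.DisjointPairs
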