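import Pool.Agent.GEN42.Main

/-!
# The question relative to Cohen generic oracles over an arbitrary base
-/

set_option autoImplicit false

namespace Pool.Agent.Results.MP_c56612_lc.GenericOracle

open N68a2faeb N793a5b8e Pool.Agent.ROr14 Pool.Agent.TO42 Pool.Agent.GEN42

/-- Let `G` range over the oracles, with the product topology. (1) If `A` is computable in
polynomial time, then relative to `A ⊕ G`, for comeager many `G`, no `NP`-complete language has a
p-optimal proof system. (2) For every `A`: all nonempty languages in `NP` relative to `A ⊕ G` have
p-optimal proof systems for comeager many `G` if and only if all nonempty total languages over `A`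
have p-optimal proof systems relative to `A`; otherwise the question has a positive answer relative
to `A ⊕ G` for comeager many `G`; `G` does not change whether all nonempty languages in `coNP` have
p-optimal proof systems; and `NP` is not contained in `P` relative to `A ⊕ G`. (3) Some `A` has
`NP ⊆ P` and p-optimal proof systems for all nonempty total languages over `A`. -/
theorem result :
    (∀ A : List Bool → Bool, IsPolyTime A →
      ∀ᶠ G in residual (List Bool → Bool), QOne (join A G)) ∧
    (∀ A : List Bool → Bool,
      ((∀ᶠ G in residual (List Bool → Bool), AllPOptimal (join A G) (NPOracle (join A G))) ↔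
        AllPOptimal A (TotalOracle A)) ∧
      ((∀ᶠ G in residual (List Bool → Bool), QOne (join A G)) ↔
        ¬ AllPOptimal A (TotalOracle A)) ∧
      (∀ᶠ G in residual (List Bool → Bool),
        (AllPOptimal (join A G) (CoNPOracle (join A G)) ↔ AllPOptimal A (CoNPOracle A))) ∧
      ∀ᶠ G in residual (List Bool → Bool), ¬ NPOracle (join A G) ⊆ POracle (join A G)) ∧
    ∃ A : List Bool → Bool, NPOracle A ⊆ POracle A ∧ AllPOptimal A (TotalOracle A) :=
  ⟨fun _ hA => poly_case hA, fun A => ⟨np_iff A, qOne_iff A, coNP_iff A, np_not_p A⟩,
    exists_collapse⟩

end Pool.Agent.Results.MP_c56612_lc.GenericOracle
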