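import Pool.Agent.ROr14.Main

/-!
# No p-optimal proof systems relative to a random oracle
-/

set_option autoImplicit false

namespace Pool.Agent.Results.MP_c56612_lc.RandomOracle

open N68a2faeb N793a5b8e MeasureTheory Pool.Agent.ROr14

/-- Relative to `X`, for every language `L` that is hard for `NP` and every proof system `P` for
`L` there is a proof system `Q` for `L` such that no function `h` computable in time `2^O(n)`
translates `Q`-proofs into `P`-proofs. -/
def NoSimulation (X : List Bool → Bool) : Prop :=
  ∀ L : DecisionProblem, IsNPHardOracle X L → ∀ P, IsProofSystemOracle X L P →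
    ∃ Q, IsProofSystemOracle X L Q ∧ ¬ ∃ h, IsExpTimeOracle X h ∧ ∀ π, P (h π) = Q π

/-- The question relative to `X`: no `NP`-complete language has a p-optimal proof system. -/
def QOne (X : List Bool → Bool) : Prop :=
  ∀ L ∈ NPOracle X, IsNPHardOracle X L → ¬ ∃ P, IsProofSystemOracle X L P ∧
    ∀ Q, IsProofSystemOracle X L Q → ∃ h : List Bool → List Bool, IsPolyTimeOracle X h ∧
      ∀ π, P (h π) = Q π

section proof

open Pool.Agent.PT Pool.Agent.TMB67

theorem expTime_of_polyTime {X : List Bool → Bool} {h : List Bool → List Bool}
    (hh : IsPolyTimeOracle X h) : IsExpTimeOracle X h := by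
  obtain ⟨F, hF, hF'⟩ := hh.exists_UT
  refine ⟨fun y => h y.1, ?_, fun x => rfl⟩
  have h1 := (hF.pre (g := fun y : List Bool × List Bool => y.1)
    PolyTime.fst').isPolyTimeOracle X
  rw [hF'] at h1
  exact h1

theorem qOne_of {X : List Bool → Bool} (hX : NoSimulation X) : QOne X := by
  rintro L _ hL ⟨P, hP, hopt⟩
  obtain ⟨Q, hQ, hn⟩ := hX L hL P hP
  obtain ⟨h, hh, hs⟩ := hopt Q hQ
  exact hn ⟨h, expTime_of_polyTime hh, hs⟩

end proof

/-- For almost every oracle `R`, and for every oracle `A` for almost every `R`, relative to `R`
respectively `A ⊕ R` no `NP`-complete language has a p-optimal proof system; even no proof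
system for an `NP`-hard language simulates all others by translations computable in
time `2^O(n)`. -/
theorem result :
    (∀ᵐ R ∂randomOracle, NoSimulation R ∧ QOne R) ∧
    ∀ A : List Bool → Bool, ∀ᵐ R ∂randomOracle, NoSimulation (join A R) ∧ QOne (join A R) := by
  constructor
  · have h := main accR (fun _ => false)
    simp only [mix_accR] at h
    filter_upwards [h] with R hR using ⟨hR, qOne_of hR⟩
  · intro A
    have h := main accJ (join A fun _ => false)
    simp only [mix_accJ] at h
    filter_upwards [h] with R hR using ⟨hR, qOne_of hR⟩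

end Pool.Agent.Results.MP_c56612_lc.RandomOracle
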