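import Pool.Agent.TO42.Main

/-!
# The question relative to tiny oracles over an arbitrary base
-/

set_option autoImplicit false

namespace Pool.Agent.Results.MP_c56612_lc.TinyOracles

open N68a2faeb N793a5b8e MeasureTheory Pool.Agent.ROr14 Pool.Agent.POpt70 Pool.Agent.TO42

/-- Let `A` be any oracle and let `T` range over the tiny oracles `{1^(2^k) : T k}`.
(1) `T` does not change whether `P = NP`. (2) Relative to `A` joined with arbitrarily thin `T` all
nonempty languages in `NP`, in `coNP`, and in any given countable family of languages of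
polynomial use have p-optimal proof systems. (3) Generic `T` do not change the truth of the
question; some `T` makes it true if and only if some tally language in `Π₂ᵖ` relative to `A` is not in
`P` relative to `A`. (4) For almost every `R`, relative to `A`, `R` and any `T` there is a one-way
function with exponential security. -/
theorem result :
    (∀ (A : List Bool → Bool) (T : ℕ → Bool),
      NPOracle (join A (tal T)) ⊆ POracle (join A (tal T)) ↔ NPOracle A ⊆ POracle A) ∧
    (∀ (A : List Bool → Bool) (Λ : ℕ → (List Bool → Bool) → DecisionProblem),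
      (∀ m, PolyUse (Λ m)) → ∀ β : ℕ → ℕ, (∀ k, ∃ n, ∀ i, n ≤ i → k ≤ β i) →
      ∃ T : ℕ → Bool, IsThin β T ∧ ∀ L : DecisionProblem,
        (L ∈ NPOracle (join A (tal T)) ∨ (fun x => !L x) ∈ NPOracle (join A (tal T)) ∨
          ∃ m, L = Λ m (join A (tal T))) →
        (∃ y, L y = true) → HasPOptimal (join A (tal T)) L) ∧
    (∀ A : List Bool → Bool,
      (∀ᶠ T in residual (ℕ → Bool), (QOne (join A (tal T)) ↔ QOne A)) ∧
      ((∃ T, QOne (join A (tal T))) ↔ ∃ B ∈ PiTwoOracle A, Tally B ∧ B ∉ POracle A)) ∧
    ∀ A : List Bool → Bool, ∀ᵐ R ∂randomOracle, ∀ T : ℕ → Bool,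
      ∃ F : List Bool → List Bool, IsOneWay (join (join A R) (tal T)) F :=
  ⟨part_one, part_two, part_three, part_four⟩

end Pool.Agent.Results.MP_c56612_lc.TinyOracles
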